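import Mathlib

/-! # H47TF, definitions: barriers for 2-factors (MP_33911d)

`ee G X Y` is the number of pairs `(x, y)` in `X × Y` with `xy` an edge of `G`. `Bar G S T C`: `S`, `T` are disjoint, `C`
is a family of pairwise disjoint sets of vertices outside `S` and `T`, each closed under adjacency outside of `S` and
`T` (a union of components of `G - S - T`), each with an odd number of edges to `T`, and
`2 |S| + (sum over t in T of the degree of t in G - S) < 2 |T| + |C|`. -/

set_option autoImplicit false

namespace H47TF

open Finset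

variable {V : Type*} [Fintype V] [DecidableEq V]

open scoped Classical in
/-- The number of pairs in `X × Y` which are adjacent in `G`. -/
noncomputable def ee (G : SimpleGraph V) (X Y : Finset V) : ℕ := ((X ×ˢ Y).filter fun p => G.Adj p.1 p.2).card

/-- A barrier of `G` (for 2-factors). -/
structure Bar (G : SimpleGraph V) (S T : Finset V) (C : Finset (Finset V)) : Prop where
  disj : Disjoint S T
  sub : ∀ c ∈ C, ∀ x ∈ c, x ∉ S ∧ x ∉ T
  pd : ∀ c ∈ C, ∀ c' ∈ C, c ≠ c' → Disjoint c c'
  cl : ∀ c ∈ C, ∀ x ∈ c, ∀ y, G.Adj x y → y ∉ S → y ∉ T → y ∈ c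
  odd : ∀ c ∈ C, Odd (ee G c T)
  big : 2 * S.card + ee G T Sᶜ < 2 * T.card + C.card

end H47TF
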