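import Pool.Agent.Lib.H47TF.M

/-! # H47TF, file F: Tutte's 2-factor theorem -/

set_option autoImplicit false

namespace H47TF

open Finset

variable {V : Type*} [Fintype V] [DecidableEq V] {G : SimpleGraph V}

omit [Fintype V] [DecidableEq V] in
theorem ee_symm (X Y : Finset V) : ee G X Y = ee G Y X := by
  classical
  unfold ee
  refine card_bij (fun p _ => p.swap) ?_ ?_ ?_
  · rintro ⟨a, b⟩ h
    rw [mem_filter, mem_product] at h ⊢
    exact ⟨⟨h.1.2, h.1.1⟩, h.2.symm⟩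
  · rintro p _ q _ h
    exact Prod.swap_injective h
  · rintro ⟨a, b⟩ h
    refine ⟨(b, a), ?_, rfl⟩
    rw [mem_filter, mem_product] at h ⊢
    exact ⟨⟨h.1.2, h.1.1⟩, h.2.symm⟩

theorem ee_split (X S : Finset V) : ee G X univ = ee G X Sᶜ + ee G X S := by
  classical
  unfold ee
  rw [← card_union_of_disjoint]
  · congr 1
    ext ⟨a, b⟩
    simp only [mem_union, mem_filter, mem_product, mem_univ, mem_compl]
    tauto
  · rw [Finset.disjoint_left]
    rintro ⟨a, b⟩ h1 h2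
    simp only [mem_filter, mem_product, mem_compl] at h1 h2
    exact h1.1.2 h2.1.2

theorem even_of_invol {N : Type*} [DecidableEq N] (s : Finset N) (f : N → N) (h1 : ∀ x ∈ s, f x ∈ s) (h2 : ∀ x ∈ s, f x ≠ x)
    (h3 : ∀ x ∈ s, f (f x) = x) : Even s.card := by
  have h : ∑ _x ∈ s, (1 : ZMod 2) = 0 :=
    sum_involution (fun x _ => f x) (fun _ _ => by decide) (fun x hx _ => h2 x hx) (fun x hx => h1 x hx)
      (fun x hx => h3 x hx)
  rw [sum_const, nsmul_eq_mul, mul_one] at h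
  exact (ZMod.natCast_eq_zero_iff_even).1 h

/-- **Tutte's 2-factor theorem**: a graph without a barrier has a 2-factor. -/
theorem two_factor (hB : ∀ S T C, ¬ Bar G S T C) : ∃ F ≤ G, ∀ v, (F.neighborSet v).ncard = 2 := by
  classical
  by_contra hno
  have hpm : ¬ ∃ M : (Gad G).Subgraph, M.IsPerfectMatching := fun hm => hno (two_of_pm hm)
  obtain ⟨A, K, hV, hA⟩ : ∃ A K, Vio (Gad G) A K ∧ Least A := by
    have hex : ∃ m, ∃ A K, Vio (Gad G) A K ∧ A.card = m := by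
      obtain ⟨A0, K0, h0⟩ := exists_vio _ hpm
      exact ⟨_, A0, K0, h0, rfl⟩
    obtain ⟨A, K, h1, h2⟩ := Nat.find_spec hex
    refine ⟨A, K, h1, fun A' K' h' => ?_⟩
    rw [h2]
    exact Nat.find_min' hex ⟨A', K', h', rfl⟩
  obtain ⟨S, hS⟩ : ∃ S : Finset V, ∀ v, v ∈ S ↔ (Sum.inl (v, false) : Nd G) ∈ A :=
    ⟨univ.filter fun v => (Sum.inl (v, false) : Nd G) ∈ A, fun v => by simp⟩
  obtain ⟨T, hT⟩ : ∃ T : Finset V, ∀ v, v ∈ T ↔ v ∉ S ∧ ∀ d : Dt G, d.1.1 = v → (Sum.inr d : Nd G) ∈ A :=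
    ⟨univ.filter fun v => v ∉ S ∧ ∀ d : Dt G, d.1.1 = v → (Sum.inr d : Nd G) ∈ A, fun v => by simp⟩
  have hSA : ∀ v ∈ S, ∀ i, (Sum.inl (v, i) : Nd G) ∈ A := by
    intro v hv i
    have h1 := (hS v).1 hv
    cases i
    · exact h1
    · exact copies hV hA v false h1
  have hSn : ∀ v, v ∉ S → ∀ i, (Sum.inl (v, i) : Nd G) ∉ A := by
    intro v hv i hi
    cases i
    · exact hv ((hS v).2 hi)
    · exact hv ((hS v).2 (copies hV hA v true hi))
  have hSd : ∀ d : Dt G, d.1.1 ∈ S → (Sum.inr d : Nd G) ∉ A := fun d hd => half_S hV hA d fun i => hSA _ hd i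
  have hRe : ∀ v, v ∉ S → v ∉ T → ∃ d : Dt G, d.1.1 = v ∧ (Sum.inr d : Nd G) ∉ A := by
    intro v h1 h2
    rw [hT] at h2
    push Not at h2
    exact h2 h1
  have hRn : ∀ d : Dt G, d.1.1 ∉ S → d.1.1 ∉ T → (Sum.inr d : Nd G) ∉ A := by
    intro d h1 h2
    obtain ⟨d0, h3, h4⟩ := hRe _ h1 h2
    exact half_R hV hA d0 d h3 (fun i => hSn _ h1 i) h4
  have hTA : ∀ d : Dt G, d.1.1 ∈ T → (Sum.inr d : Nd G) ∈ A := fun d hd => ((hT _).1 hd).2 d rfl
  have hST : ∀ v ∈ T, v ∉ S := fun v hv => ((hT v).1 hv).1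
  -- the small members
  obtain ⟨Z, hZ⟩ : ∃ Z : Finset (Nd G), Z = ((T ×ˢ (univ : Finset Bool)).image fun p => (Sum.inl p : Nd G)) ∪
      ((univ.filter fun d : Dt G => d.1.1 ∈ S ∧ d.1.2 ∈ T).image fun d => (Sum.inr d : Nd G)) := ⟨_, rfl⟩
  have hZl : ∀ v i, (Sum.inl (v, i) : Nd G) ∈ Z ↔ v ∈ T := by
    intro v i
    rw [hZ, mem_union, mem_image, mem_image]
    constructor
    · rintro (⟨p, h1, h2⟩ | ⟨d, -, h2⟩)
      · have := Sum.inl_injective h2
        subst this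
        exact (mem_product.1 h1).1
      · exact absurd h2.symm Sum.inl_ne_inr
    · intro h
      exact Or.inl ⟨(v, i), mem_product.2 ⟨h, mem_univ _⟩, rfl⟩
  have hZr : ∀ d : Dt G, (Sum.inr d : Nd G) ∈ Z ↔ d.1.1 ∈ S ∧ d.1.2 ∈ T := by
    intro d
    rw [hZ, mem_union, mem_image, mem_image]
    constructor
    · rintro (⟨p, h1, h2⟩ | ⟨d', h1, h2⟩)
      · exact absurd h2 Sum.inl_ne_inr
      · have := Sum.inr_injective h2
        subst this
        exact (mem_filter.1 h1).2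
    · intro h
      exact Or.inr ⟨d, mem_filter.2 ⟨mem_univ _, h⟩, rfl⟩
  have hdt : ∀ X Y : Finset V, (univ.filter fun d : Dt G => d.1.1 ∈ X ∧ d.1.2 ∈ Y).card = ee G X Y := by
    intro X Y
    unfold ee
    refine card_bij (fun d _ => d.1) ?_ ?_ ?_
    · intro d hd
      rw [mem_filter] at hd
      rw [mem_filter, mem_product]
      exact ⟨hd.2, d.2⟩
    · intro d _ d' _ h
      exact Subtype.ext h
    · intro p hp
      rw [mem_filter, mem_product] at hp
      exact ⟨⟨p, hp.2⟩, mem_filter.2 ⟨mem_univ _, hp.1⟩, rfl⟩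
  have hZc : Z.card ≤ 2 * T.card + ee G S T := by
    rw [hZ]
    refine (card_union_le _ _).trans (Nat.add_le_add ?_ ?_)
    · refine card_image_le.trans ?_
      rw [card_product, card_univ, Fintype.card_bool, mul_comm]
    · refine card_image_le.trans ?_
      rw [hdt]
  have hAc : 2 * S.card + ee G T univ ≤ A.card := by
    have h1 : ((S ×ˢ (univ : Finset Bool)).image fun p => (Sum.inl p : Nd G)) ∪
        ((univ.filter fun d : Dt G => d.1.1 ∈ T ∧ d.1.2 ∈ (univ : Finset V)).image fun d => (Sum.inr d : Nd G)) ⊆ A := by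
      refine union_subset ?_ ?_
      · intro x hx
        obtain ⟨⟨v, i⟩, h1, rfl⟩ := mem_image.1 hx
        exact hSA v (mem_product.1 h1).1 i
      · intro x hx
        obtain ⟨d, h1, rfl⟩ := mem_image.1 hx
        exact hTA d (mem_filter.1 h1).2.1
    refine le_trans (le_of_eq ?_) (card_le_card h1)
    rw [card_union_of_disjoint, card_image_of_injective _ Sum.inl_injective, card_image_of_injective _ Sum.inr_injective,
      hdt, card_product, card_univ, Fintype.card_bool, mul_comm]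
    rw [Finset.disjoint_left]
    intro x h1 h2
    obtain ⟨p, -, rfl⟩ := mem_image.1 h1
    obtain ⟨d, -, h3⟩ := mem_image.1 h2
    exact Sum.inl_ne_inr h3.symm
  have hK1 : (K.filter fun k => ∃ x ∈ k, x ∈ Z).card ≤ Z.card := by
    have hch : ∀ k ∈ K.filter (fun k => ∃ x ∈ k, x ∈ Z), ∃ x, x ∈ k ∧ x ∈ Z := fun k hk => by
      obtain ⟨x, h1, h2⟩ := (mem_filter.1 hk).2
      exact ⟨x, h1, h2⟩
    choose g hg1 hg2 using hch
    rw [← card_attach]
    refine card_le_card_of_injOn (fun k => g k.1 k.2) (fun k _ => hg2 k.1 k.2) ?_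
    intro k _ k' _ hkk
    by_contra hne
    have h1 := hg1 k.1 k.2
    have h2 := hg1 k'.1 k'.2
    simp only at hkk
    rw [← hkk] at h2
    exact Finset.disjoint_left.1 (hV.pd k.1 (mem_filter.1 k.2).1 k'.1 (mem_filter.1 k'.2).1
      fun h => hne (Subtype.ext h)) h1 h2
  -- the big members
  obtain ⟨R, hR⟩ : ∃ R : Finset (Nd G) → Finset V, ∀ k v, v ∈ R k ↔ (Sum.inl (v, false) : Nd G) ∈ k :=
    ⟨fun k => univ.filter fun v => (Sum.inl (v, false) : Nd G) ∈ k, fun k v => by simp⟩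
  obtain ⟨K2, hK2⟩ : ∃ K2, K2 = K.filter fun k => ¬ ∃ x ∈ k, x ∈ Z := ⟨_, rfl⟩
  have hK2m : ∀ k ∈ K2, k ∈ K ∧ ∀ x ∈ k, x ∉ Z := by
    intro k hk
    rw [hK2, mem_filter] at hk
    exact ⟨hk.1, fun x hx hxZ => hk.2 ⟨x, hx, hxZ⟩⟩
  have hl : ∀ k ∈ K2, ∀ v i, (Sum.inl (v, i) : Nd G) ∈ k → v ∉ S ∧ v ∉ T := by
    intro k hk v i hi
    obtain ⟨h1, h2⟩ := hK2m k hk
    exact ⟨fun hv => hV.out k h1 _ hi (hSA v hv i), fun hv => h2 _ hi ((hZl v i).2 hv)⟩
  have hsub : ∀ k ∈ K2, ∀ x ∈ R k, x ∉ S ∧ x ∉ T := fun k hk x hx => hl k hk x false ((hR k x).1 hx)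
  have hr : ∀ k ∈ K2, ∀ d : Dt G, (Sum.inr d : Nd G) ∈ k → d.1.1 ∉ T := by
    intro k hk d hd hdT
    exact hV.out k (hK2m k hk).1 _ hd (hTA d hdT)
  have hodd : ∀ k ∈ K2, Odd (ee G (R k) T) := by
    intro k hk
    obtain ⟨hkK, hkZ⟩ := hK2m k hk
    obtain ⟨B, hBd⟩ : ∃ B : Finset (Nd G), ∀ x, x ∈ B ↔ x ∈ k ∧ ∃ d : Dt G, x = Sum.inr d ∧ d.1.2 ∈ T :=
      ⟨k.filter fun x => ∃ d : Dt G, x = Sum.inr d ∧ d.1.2 ∈ T, fun x => by rw [mem_filter]⟩
    have hBk : B ⊆ k := fun x hx => ((hBd x).1 hx).1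
    have hBc : ee G (R k) T = B.card := by
      unfold ee
      refine card_bij (fun p hp => Sum.inr ⟨p, (mem_filter.1 hp).2⟩) ?_ ?_ ?_
      · rintro ⟨c, t⟩ hp
        obtain ⟨h1, h2⟩ := mem_filter.1 hp
        obtain ⟨h3, h4⟩ := mem_product.1 h1
        obtain ⟨h5, h6⟩ := hsub k hk c h3
        refine (hBd _).2 ⟨?_, ⟨(c, t), h2⟩, rfl, h4⟩
        exact hV.cl k hkK _ ((hR k c).1 h3) _ (by rw [ad_lr]) (hRn ⟨(c, t), h2⟩ h5 h6)
      · intro p hp q hq hpq
        exact congrArg Subtype.val (Sum.inr_injective hpq)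
      · intro x hx
        obtain ⟨h1, d, rfl, h2⟩ := (hBd x).1 hx
        have h3 : d.1.1 ∉ S := fun hS' => hkZ _ h1 ((hZr d).2 ⟨hS', h2⟩)
        refine ⟨d.1, ?_, rfl⟩
        rw [mem_filter, mem_product]
        refine ⟨⟨(hR k _).2 ?_, h2⟩, d.2⟩
        exact hV.cl k hkK _ h1 _ (by rw [ad_rl]) (hSn _ h3 false)
    have hev : Even (k \ B).card := by
      refine even_of_invol (k \ B) (Sum.elim (fun p => Sum.inl (p.1, !p.2)) fun d => Sum.inr (sw d)) ?_ ?_ ?_
      · intro x hx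
        rw [mem_sdiff] at hx ⊢
        obtain ⟨hx1, hx2⟩ := hx
        rcases x with ⟨v, i⟩ | d
        · obtain ⟨h3, h4⟩ := hl k hk v i hx1
          obtain ⟨d0, h5, h6⟩ := hRe v h3 h4
          have h7 : (Sum.inr d0 : Nd G) ∈ k := hV.cl k hkK _ hx1 _ (by rw [ad_lr]; exact h5) h6
          refine ⟨hV.cl k hkK _ h7 _ (by simp only [Sum.elim_inl, ad_rl]; exact h5) (hSn v h3 _), fun hb => ?_⟩
          obtain ⟨-, d, h8, -⟩ := (hBd _).1 hb
          exact Sum.inl_ne_inr h8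
        · have h3 : d.1.2 ∉ T := fun h => hx2 ((hBd _).2 ⟨hx1, d, rfl, h⟩)
          have h4 : (Sum.inr (sw d) : Nd G) ∉ A := by
            by_cases h5 : d.1.2 ∈ S
            · exact hSd (sw d) h5
            · exact hRn (sw d) h5 h3
          refine ⟨hV.cl k hkK _ hx1 _ (by simp only [Sum.elim_inr, ad_rr]) h4, fun hb => ?_⟩
          obtain ⟨-, d', h8, h9⟩ := (hBd _).1 hb
          simp only [Sum.elim_inr] at h8
          have h10 : sw d = d' := Sum.inr_injective h8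
          rw [← h10] at h9
          exact hr k hk d hx1 h9
      · rintro (⟨v, i⟩ | d) _ h
        · simp only [Sum.elim_inl, Sum.inl.injEq, Prod.mk.injEq, true_and] at h
          cases i <;> simp at h
        · simp only [Sum.elim_inr, Sum.inr.injEq] at h
          exact sw_ne d h
      · rintro (⟨v, i⟩ | d) _
        · simp only [Sum.elim_inl, Bool.not_not]
        · simp only [Sum.elim_inr, sw_sw]
    have hkc := hV.odd k hkK
    have h9 : (k \ B).card + B.card = k.card := card_sdiff_add_card_eq_card hBk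
    rw [hBc]
    rw [← h9] at hkc
    by_contra hcon
    rw [Nat.not_odd_iff_even] at hcon
    exact (Nat.not_odd_iff_even.2 (hev.add hcon)) hkc
  refine hB S T (K2.image R) ⟨?_, ?_, ?_, ?_, ?_, ?_⟩
  · rw [Finset.disjoint_left]
    exact fun v h1 h2 => hST v h2 h1
  · intro c hc x hx
    obtain ⟨k, hk, rfl⟩ := mem_image.1 hc
    exact hsub k hk x hx
  · intro c hc c' hc' hne
    obtain ⟨k, hk, rfl⟩ := mem_image.1 hc
    obtain ⟨k', hk', rfl⟩ := mem_image.1 hc'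
    rw [Finset.disjoint_left]
    intro x hx hx'
    refine Finset.disjoint_left.1 (hV.pd k (hK2m k hk).1 k' (hK2m k' hk').1 fun h => hne (h ▸ rfl)) ((hR k x).1 hx)
      ((hR k' x).1 hx')
  · intro c hc x hx y hxy hyS hyT
    obtain ⟨k, hk, rfl⟩ := mem_image.1 hc
    obtain ⟨h1, h2⟩ := hsub k hk x hx
    have hkK := (hK2m k hk).1
    have h3 : (Sum.inr ⟨(x, y), hxy⟩ : Nd G) ∈ k :=
      hV.cl k hkK _ ((hR k x).1 hx) _ (by rw [ad_lr]) (hRn ⟨(x, y), hxy⟩ h1 h2)
    have h4 : (Sum.inr ⟨(y, x), hxy.symm⟩ : Nd G) ∈ k :=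
      hV.cl k hkK _ h3 _ (by rw [ad_rr]; rfl) (hRn ⟨(y, x), hxy.symm⟩ hyS hyT)
    exact (hR k y).2 (hV.cl k hkK _ h4 _ (by rw [ad_rl]) (hSn y hyS false))
  · intro c hc
    obtain ⟨k, hk, rfl⟩ := mem_image.1 hc
    exact hodd k hk
  · have hinj : Set.InjOn R (K2 : Set (Finset (Nd G))) := by
      intro k hk k' hk' hkk
      by_contra hne
      have h1 := hV.pd k (hK2m k hk).1 k' (hK2m k' hk').1 hne
      have h2 : R k = ∅ := by
        rw [Finset.eq_empty_iff_forall_notMem]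
        intro x hx
        have hx' := hx
        rw [hkk] at hx'
        exact Finset.disjoint_left.1 h1 ((hR k x).1 hx) ((hR k' x).1 hx')
      have h3 := hodd k hk
      rw [h2] at h3
      simp [ee] at h3
    rw [card_image_of_injOn hinj]
    have h1 := hV.big
    have h2 : K.card = (K.filter fun k => ∃ x ∈ k, x ∈ Z).card + K2.card := by
      rw [hK2]
      exact (card_filter_add_card_filter_not _).symm
    have h3 := ee_split (G := G) T S
    have h4 := ee_symm (G := G) T S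
    omega

end H47TF
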