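import Mathlib

/-! # H47TF, file V: violating families (Tutte's theorem without components) -/

set_option autoImplicit false

namespace H47TF

open Finset

variable {N : Type*} [Fintype N] [DecidableEq N]

/-- `K` is a family of pairwise disjoint odd sets outside `A`, closed under adjacency outside of `A`, with more than
`|A|` members. -/
structure Vio (Γ : SimpleGraph N) (A : Finset N) (K : Finset (Finset N)) : Prop where
  out : ∀ k ∈ K, ∀ x ∈ k, x ∉ A
  pd : ∀ k ∈ K, ∀ k' ∈ K, k ≠ k' → Disjoint k k'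
  cl : ∀ k ∈ K, ∀ x ∈ k, ∀ y, Γ.Adj x y → y ∉ A → y ∈ k
  odd : ∀ k ∈ K, Odd k.card
  big : A.card < K.card

theorem exists_vio (Γ : SimpleGraph N) (h : ¬ ∃ M : Γ.Subgraph, M.IsPerfectMatching) : ∃ A K, Vio Γ A K := by
  classical
  rw [SimpleGraph.tutte] at h
  push Not at h
  obtain ⟨u, hu⟩ := h
  unfold SimpleGraph.IsTutteViolator at hu
  set H := ((⊤ : Γ.Subgraph).deleteVerts u) with hH
  set f : H.coe.ConnectedComponent → Finset N := fun c => (univ.filter fun x : N => ∃ h : x ∈ H.verts, (⟨x, h⟩ : H.verts) ∈ c.supp) with hf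
  have hmem : ∀ c x, x ∈ f c ↔ ∃ h : x ∈ H.verts, (⟨x, h⟩ : H.verts) ∈ c.supp := by
    intro c x
    simp [hf]
  have hverts : ∀ x, x ∈ H.verts ↔ x ∉ u := by
    intro x
    simp [hH]
  have hcard : ∀ c, (f c).card = c.supp.ncard := by
    intro c
    rw [← Set.ncard_coe_finset, ← Set.ncard_image_of_injective c.supp Subtype.val_injective]
    congr 1
    ext x
    rw [mem_coe, hmem]
    constructor
    · rintro ⟨h1, h2⟩
      exact ⟨⟨x, h1⟩, h2, rfl⟩
    · rintro ⟨⟨y, hy⟩, h2, rfl⟩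
      exact ⟨hy, h2⟩
  have hdis : ∀ c c', c ≠ c' → Disjoint (f c) (f c') := by
    intro c c' hcc
    rw [Finset.disjoint_left]
    intro x h1 h2
    obtain ⟨a1, a2⟩ := (hmem c x).1 h1
    obtain ⟨b1, b2⟩ := (hmem c' x).1 h2
    rw [SimpleGraph.ConnectedComponent.mem_supp_iff] at a2 b2
    exact hcc (a2.symm.trans b2)
  have hne : ∀ c, (f c).Nonempty := by
    intro c
    obtain ⟨⟨x, hx⟩, rfl⟩ := c.exists_rep
    exact ⟨x, (hmem _ x).2 ⟨hx, rfl⟩⟩
  have hinj : Function.Injective f := by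
    intro c c' hcc
    by_contra hne'
    have := hdis c c' hne'
    rw [← hcc, disjoint_self_iff_empty] at this
    exact (hne c).ne_empty this
  refine ⟨u.toFinset, (H.coe.oddComponents.toFinset).image f, ⟨?_, ?_, ?_, ?_, ?_⟩⟩
  · intro k hk x hx
    obtain ⟨c, -, rfl⟩ := mem_image.1 hk
    obtain ⟨h1, -⟩ := (hmem c x).1 hx
    rw [Set.mem_toFinset]
    exact (hverts x).1 h1
  · intro k hk k' hk' hkk
    obtain ⟨c, -, rfl⟩ := mem_image.1 hk
    obtain ⟨c', -, rfl⟩ := mem_image.1 hk'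
    exact hdis c c' fun h => hkk (h ▸ rfl)
  · intro k hk x hx y hxy hy
    obtain ⟨c, -, rfl⟩ := mem_image.1 hk
    obtain ⟨h1, h2⟩ := (hmem c x).1 hx
    rw [Set.mem_toFinset] at hy
    have hy' : y ∈ H.verts := (hverts y).2 hy
    refine (hmem c y).2 ⟨hy', ?_⟩
    rw [SimpleGraph.ConnectedComponent.mem_supp_iff] at h2 ⊢
    rw [← h2]
    refine SimpleGraph.ConnectedComponent.sound (SimpleGraph.Adj.reachable ?_)
    rw [SimpleGraph.Subgraph.coe_adj]
    show H.Adj y x
    rw [hH, SimpleGraph.Subgraph.deleteVerts_adj]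
    refine ⟨trivial, hy, trivial, (hverts x).1 h1, ?_⟩
    exact hxy.symm
  · intro k hk
    obtain ⟨c, hc, rfl⟩ := mem_image.1 hk
    rw [Set.mem_toFinset] at hc
    rw [hcard]
    exact hc
  · rw [card_image_of_injective _ hinj, ← Set.ncard_eq_toFinset_card', ← Set.ncard_eq_toFinset_card']
    exact hu

variable {Γ : SimpleGraph N} {A : Finset N} {K : Finset (Finset N)}

theorem drop1 (h : Vio Γ A K) {d : N} (hd : d ∈ A) (k0 : Finset N) (hk : ∀ k ∈ K, k ≠ k0 → ∀ x ∈ k, ¬ Γ.Adj x d) :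
    Vio Γ (A.erase d) (K.erase k0) := by
  refine ⟨fun k hk' x hx hxA => h.out k (mem_of_mem_erase hk') x hx (mem_of_mem_erase hxA),
    fun k hk1 k' hk2 => h.pd k (mem_of_mem_erase hk1) k' (mem_of_mem_erase hk2), ?_,
    fun k hk1 => h.odd k (mem_of_mem_erase hk1), ?_⟩
  · intro k hk1 x hx y hxy hy
    refine h.cl k (mem_of_mem_erase hk1) x hx y hxy fun hyA => hy (mem_erase.2 ⟨?_, hyA⟩)
    rintro rfl
    exact hk k (mem_of_mem_erase hk1) (ne_of_mem_erase hk1) x hx hxy
  · have h1 := h.big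
    have h2 := card_erase_of_mem hd
    have h3 : 0 < A.card := card_pos.2 ⟨d, hd⟩
    have h4 := pred_card_le_card_erase (s := K) (a := k0)
    omega

theorem drop2 (h : Vio Γ A K) {d : N} (hd : d ∈ A) {k1 k2 : Finset N} (hk1 : k1 ∈ K) (hk2 : k2 ∈ K) (h12 : k1 ≠ k2)
    (hy : ∀ y, Γ.Adj d y → y ∉ A → y ∈ k1 ∨ y ∈ k2)
    (hk : ∀ k ∈ K, k ≠ k1 → k ≠ k2 → ∀ x ∈ k, ¬ Γ.Adj x d) :
    Vio Γ (A.erase d) (insert (insert d (k1 ∪ k2)) ((K.erase k1).erase k2)) := by
  have hd' : ∀ k ∈ K, d ∉ k := fun k hk' hdk => h.out k hk' d hdk hd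
  have hin : ∀ k, k ∈ (K.erase k1).erase k2 → k ∈ K ∧ k ≠ k1 ∧ k ≠ k2 := fun k hk' =>
    ⟨mem_of_mem_erase (mem_of_mem_erase hk'), ne_of_mem_erase (mem_of_mem_erase hk'), ne_of_mem_erase hk'⟩
  have hdis : ∀ k, k ∈ (K.erase k1).erase k2 → Disjoint (insert d (k1 ∪ k2)) k := by
    intro k hk'
    obtain ⟨a, b, c⟩ := hin k hk'
    rw [disjoint_insert_left, disjoint_union_left]
    exact ⟨hd' k a, h.pd k1 hk1 k a b.symm, h.pd k2 hk2 k a c.symm⟩
  refine ⟨?_, ?_, ?_, ?_, ?_⟩
  · intro k hk' x hx hxA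
    rcases mem_insert.1 hk' with rfl | hk'
    · rcases mem_insert.1 hx with rfl | hx
      · exact (notMem_erase _ _) hxA
      · rcases mem_union.1 hx with hx | hx
        · exact h.out k1 hk1 x hx (mem_of_mem_erase hxA)
        · exact h.out k2 hk2 x hx (mem_of_mem_erase hxA)
    · exact h.out k (hin k hk').1 x hx (mem_of_mem_erase hxA)
  · intro k hk' k' hk'' hne
    rcases mem_insert.1 hk' with e | hk'
    · rcases mem_insert.1 hk'' with e' | hk''
      · exact absurd (e.trans e'.symm) hne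
      · rw [e]
        exact hdis k' hk''
    · rcases mem_insert.1 hk'' with e' | hk''
      · rw [e']
        exact (hdis k hk').symm
      · exact h.pd k (hin k hk').1 k' (hin k' hk'').1 hne
  · intro k hk' x hx y hxy hyA
    have hyA' : y ≠ d → y ∉ A := fun hyd hyA2 => hyA (mem_erase.2 ⟨hyd, hyA2⟩)
    rcases mem_insert.1 hk' with rfl | hk'
    · by_cases hyd : y = d
      · rw [hyd]
        exact mem_insert_self _ _
      · refine mem_insert_of_mem (mem_union.2 ?_)
        rcases mem_insert.1 hx with rfl | hx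
        · exact hy y hxy (hyA' hyd)
        · rcases mem_union.1 hx with hx | hx
          · exact Or.inl (h.cl k1 hk1 x hx y hxy (hyA' hyd))
          · exact Or.inr (h.cl k2 hk2 x hx y hxy (hyA' hyd))
    · obtain ⟨a, b, c⟩ := hin k hk'
      refine h.cl k a x hx y hxy (hyA' ?_)
      rintro rfl
      exact hk k a b c x hx hxy
  · intro k hk'
    rcases mem_insert.1 hk' with rfl | hk'
    · rw [card_insert_of_notMem (fun hdk => (mem_union.1 hdk).elim (hd' k1 hk1) (hd' k2 hk2)),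
        card_union_of_disjoint (h.pd k1 hk1 k2 hk2 h12)]
      exact ((h.odd k1 hk1).add_odd (h.odd k2 hk2)).add_one
    · exact h.odd k (hin k hk').1
  · have e1 := card_erase_of_mem hk1
    have e2 := card_erase_of_mem (mem_erase.2 ⟨h12.symm, hk2⟩)
    have e3 : (insert (insert d (k1 ∪ k2)) ((K.erase k1).erase k2)).card = ((K.erase k1).erase k2).card + 1 := by
      refine card_insert_of_notMem fun hmem => ?_
      exact hd' _ (hin _ hmem).1 (mem_insert_self _ _)
    have e4 := card_erase_of_mem hd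
    have e5 : 0 < A.card := card_pos.2 ⟨d, hd⟩
    have e6 := h.big
    have e7 : 2 ≤ K.card := by
      have := card_le_card (show ({k1, k2} : Finset (Finset N)) ⊆ K by
        intro k hk'
        rcases mem_insert.1 hk' with rfl | hk'
        · exact hk1
        · rw [mem_singleton.1 hk']
          exact hk2)
      rwa [card_pair h12] at this
    omega

end H47TF
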