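import Pool.Agent.Lib.H47TF.Def
import Pool.Agent.Lib.H47TF.V

/-! # H47TF, file G: the gadget graph -/

set_option autoImplicit false

namespace H47TF

open Finset

variable {V : Type*} [Fintype V] [DecidableEq V]

/-- Half-edges. -/
abbrev Dt (G : SimpleGraph V) := {p : V × V // G.Adj p.1 p.2}

/-- The vertices of the gadget graph: two copies of every vertex, and all half-edges. -/
abbrev Nd (G : SimpleGraph V) := (V × Bool) ⊕ Dt G

/-- The other half of an edge. -/
def sw {G : SimpleGraph V} (d : Dt G) : Dt G := ⟨d.1.swap, d.2.symm⟩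

omit [Fintype V] [DecidableEq V] in
theorem sw_sw {G : SimpleGraph V} (d : Dt G) : sw (sw d) = d := Subtype.ext (Prod.swap_swap d.1)

omit [Fintype V] [DecidableEq V] in
theorem sw_ne {G : SimpleGraph V} (d : Dt G) : sw d ≠ d := by
  intro h
  have h1 : d.1.2 = d.1.1 := congrArg (fun e : Dt G => e.1.1) h
  exact d.2.ne h1.symm

/-- The gadget graph. -/
def Gad (G : SimpleGraph V) : SimpleGraph (Nd G) where
  Adj a b := match a, b with
    | Sum.inl p, Sum.inr d => d.1.1 = p.1
    | Sum.inr d, Sum.inl p => d.1.1 = p.1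
    | Sum.inr d, Sum.inr d' => d' = sw d
    | Sum.inl _, Sum.inl _ => False
  symm := by
    constructor
    rintro (p | d) (q | d') h
    · exact h
    · exact h
    · exact h
    · show d = sw d'
      have h' : d' = sw d := h
      rw [h', sw_sw]
  loopless := by
    constructor
    rintro (p | d) h
    · exact h
    · exact sw_ne d (show d = sw d from h).symm

variable {G : SimpleGraph V}

omit [Fintype V] [DecidableEq V] in
@[simp] theorem ad_lr (p : V × Bool) (d : Dt G) : (Gad G).Adj (Sum.inl p) (Sum.inr d) ↔ d.1.1 = p.1 := Iff.rfl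

omit [Fintype V] [DecidableEq V] in
@[simp] theorem ad_rl (p : V × Bool) (d : Dt G) : (Gad G).Adj (Sum.inr d) (Sum.inl p) ↔ d.1.1 = p.1 := Iff.rfl

omit [Fintype V] [DecidableEq V] in
@[simp] theorem ad_rr (d d' : Dt G) : (Gad G).Adj (Sum.inr d) (Sum.inr d') ↔ d' = sw d := Iff.rfl

omit [Fintype V] [DecidableEq V] in
@[simp] theorem ad_ll (p q : V × Bool) : ¬ (Gad G).Adj (Sum.inl p) (Sum.inl q) := fun h => h

/-- A perfect matching of the gadget graph gives a 2-factor. -/
theorem two_of_pm (h : ∃ M : (Gad G).Subgraph, M.IsPerfectMatching) :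
    ∃ F ≤ G, ∀ v, (F.neighborSet v).ncard = 2 := by
  classical
  obtain ⟨M, hM⟩ := h
  rw [SimpleGraph.Subgraph.isPerfectMatching_iff] at hM
  -- the edges of F: the half-edge at `u` is matched with a copy of `u`
  have hP : ∀ d : Dt G, (∃ i, M.Adj (Sum.inr d) (Sum.inl (d.1.1, i))) ∨ M.Adj (Sum.inr d) (Sum.inr (sw d)) := by
    intro d
    obtain ⟨w, hw, -⟩ := hM (Sum.inr d)
    have hw' := M.adj_sub hw
    rcases w with ⟨v, i⟩ | d'
    · rw [ad_rl] at hw'
      simp only at hw'
      subst hw'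
      exact Or.inl ⟨i, hw⟩
    · rw [ad_rr] at hw'
      subst hw'
      exact Or.inr hw
  have hx : ∀ d : Dt G, (∃ i, M.Adj (Sum.inr d) (Sum.inl (d.1.1, i))) → ¬ M.Adj (Sum.inr d) (Sum.inr (sw d)) := by
    rintro d ⟨i, hi⟩ h2
    exact Sum.inl_ne_inr ((hM (Sum.inr d)).unique hi h2)
  have hs : ∀ d : Dt G, (∃ i, M.Adj (Sum.inr d) (Sum.inl (d.1.1, i))) → ∃ i, M.Adj (Sum.inr (sw d)) (Sum.inl ((sw d).1.1, i)) := by
    intro d hd
    rcases hP (sw d) with h1 | h1
    · exact h1
    · rw [sw_sw] at h1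
      exact absurd h1.symm (hx d hd)
  let F : SimpleGraph V :=
    { Adj := fun u v => ∃ h : G.Adj u v, ∃ i, M.Adj (Sum.inr ⟨(u, v), h⟩) (Sum.inl (u, i))
      symm := ⟨by
        rintro u v ⟨h, hi⟩
        exact ⟨h.symm, hs ⟨(u, v), h⟩ hi⟩⟩
      loopless := ⟨by
        rintro u ⟨h, -⟩
        exact h.ne rfl⟩ }
  refine ⟨F, fun u v ⟨h, _⟩ => h, fun v => ?_⟩
  -- the copies of `v` are matched with half-edges at `v`
  have hc : ∀ i : Bool, ∃ w, ∃ h : G.Adj v w, M.Adj (Sum.inl (v, i)) (Sum.inr ⟨(v, w), h⟩) := by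
    intro i
    obtain ⟨x, hx', -⟩ := hM (Sum.inl (v, i))
    have h2 := M.adj_sub hx'
    rcases x with p | ⟨⟨a, b⟩, hab⟩
    · exact absurd h2 (ad_ll _ _)
    · rw [ad_lr] at h2
      simp only at h2
      subst h2
      exact ⟨b, hab, hx'⟩
  choose w hw hm using hc
  have hset : F.neighborSet v = {w true, w false} := by
    ext y
    rw [SimpleGraph.mem_neighborSet, Set.mem_insert_iff, Set.mem_singleton_iff]
    constructor
    · rintro ⟨h, i, hi⟩
      have h3 := (hM (Sum.inl (v, i))).unique hi.symm (hm i)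
      have h4 : y = w i := by
        have h5 := Sum.inr_injective h3
        exact congrArg (fun e : Dt G => e.1.2) h5
      cases i
      · exact Or.inr h4
      · exact Or.inl h4
    · rintro (rfl | rfl)
      · exact ⟨hw true, true, (hm true).symm⟩
      · exact ⟨hw false, false, (hm false).symm⟩
  rw [hset, Set.ncard_pair]
  intro heq
  have h6 : (Sum.inl (v, true) : Nd G) = Sum.inl (v, false) := by
    refine (hM (Sum.inr ⟨(v, w true), hw true⟩)).unique (hm true).symm ?_
    have h7 : (⟨(v, w true), hw true⟩ : Dt G) = ⟨(v, w false), hw false⟩ := Subtype.ext (Prod.ext rfl heq)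
    rw [h7]
    exact (hm false).symm
  simp at h6

end H47TF
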