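import Pool.Agent.Lib.H47TF.G

/-! # H47TF, file M: a violating family with the least number of vertices in the gadget graph -/

set_option autoImplicit false

namespace H47TF

open Finset

variable {V : Type*} [Fintype V] [DecidableEq V] {G : SimpleGraph V}

section

variable [Fintype (Nd G)] [DecidableEq (Nd G)] {A : Finset (Nd G)} {K : Finset (Finset (Nd G))}

/-- `A` is as small as possible. -/
def Least (A : Finset (Nd G)) : Prop := ∀ A' K', Vio (Gad G) A' K' → A.card ≤ A'.card

omit [Fintype V] [DecidableEq V] [Fintype (Nd G)] in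
theorem least_erase (hA : Least A) {d : Nd G} (hd : d ∈ A) {K'} : ¬ Vio (Gad G) (A.erase d) K' := by
  intro h
  have h1 := hA _ _ h
  have h2 := card_erase_of_mem hd
  have h3 : 0 < A.card := card_pos.2 ⟨d, hd⟩
  omega

omit [Fintype V] [DecidableEq V] in
/-- Both copies or none. -/
theorem copies (h : Vio (Gad G) A K) (hA : Least A) (v : V) (i : Bool) (hv : (Sum.inl (v, i) : Nd G) ∈ A) :
    (Sum.inl (v, !i) : Nd G) ∈ A := by
  by_contra hn
  -- a member with a neighbour of `(v, i)` contains `(v, !i)`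
  have key : ∀ k ∈ K, ∀ x ∈ k, (Gad G).Adj x (Sum.inl (v, i)) → (Sum.inl (v, !i) : Nd G) ∈ k := by
    intro k hk x hx hxd
    rcases x with p | d
    · exact absurd hxd (ad_ll _ _)
    · refine h.cl k hk _ hx _ ?_ hn
      rw [ad_rl] at hxd ⊢
      exact hxd
  by_cases hex : ∃ k ∈ K, (Sum.inl (v, !i) : Nd G) ∈ k
  · obtain ⟨k0, hk0, hm⟩ := hex
    refine least_erase hA hv (drop1 h hv k0 fun k hk hne x hx hxd => ?_)
    exact Finset.disjoint_left.1 (h.pd k hk k0 hk0 hne) (key k hk x hx hxd) hm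
  · refine least_erase hA hv (drop1 h hv ∅ fun k hk _ x hx hxd => ?_)
    exact hex ⟨k, hk, key k hk x hx hxd⟩

omit [Fintype V] [DecidableEq V] in
/-- No half-edge at a vertex of `S`. -/
theorem half_S (h : Vio (Gad G) A K) (hA : Least A) (d : Dt G) (hd0 : ∀ i, (Sum.inl (d.1.1, i) : Nd G) ∈ A) :
    (Sum.inr d : Nd G) ∉ A := by
  intro hd
  have key : ∀ k ∈ K, ∀ x ∈ k, (Gad G).Adj x (Sum.inr d) → (Sum.inr (sw d) : Nd G) ∈ k := by
    intro k hk x hx hxd
    rcases x with ⟨v, i⟩ | d'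
    · rw [ad_lr] at hxd
      simp only at hxd
      subst hxd
      exact absurd (hd0 i) (h.out k hk _ hx)
    · have hxd' := hxd.symm
      rw [ad_rr] at hxd'
      rw [← hxd']
      exact hx
  by_cases hex : ∃ k ∈ K, (Sum.inr (sw d) : Nd G) ∈ k
  · obtain ⟨k0, hk0, hm⟩ := hex
    refine least_erase hA hd (drop1 h hd k0 fun k hk hne x hx hxd => ?_)
    exact Finset.disjoint_left.1 (h.pd k hk k0 hk0 hne) (key k hk x hx hxd) hm
  · refine least_erase hA hd (drop1 h hd ∅ fun k hk _ x hx hxd => ?_)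
    exact hex ⟨k, hk, key k hk x hx hxd⟩

omit [Fintype V] [DecidableEq V] in
/-- If one half-edge at `v` is not in `A` (and the copies of `v` are not), then none is. -/
theorem half_R (h : Vio (Gad G) A K) (hA : Least A) (d0 d : Dt G) (h01 : d0.1.1 = d.1.1)
    (hd1 : ∀ i, (Sum.inl (d.1.1, i) : Nd G) ∉ A) (hd0 : (Sum.inr d0 : Nd G) ∉ A) : (Sum.inr d : Nd G) ∉ A := by
  intro hd
  -- a member with one copy of `v` contains both
  have hboth : ∀ k ∈ K, ∀ i j, (Sum.inl (d.1.1, i) : Nd G) ∈ k → (Sum.inl (d.1.1, j) : Nd G) ∈ k := by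
    intro k hk i j hi
    have h1 : (Sum.inr d0 : Nd G) ∈ k := h.cl k hk _ hi _ (by rw [ad_lr]; exact h01) hd0
    exact h.cl k hk _ h1 _ (by rw [ad_rl]; exact h01) (hd1 j)
  have key : ∀ k ∈ K, ∀ x ∈ k, (Gad G).Adj x (Sum.inr d) →
      (Sum.inl (d.1.1, true) : Nd G) ∈ k ∨ (Sum.inr (sw d) : Nd G) ∈ k := by
    intro k hk x hx hxd
    rcases x with ⟨v, i⟩ | d'
    · rw [ad_lr] at hxd
      simp only at hxd
      subst hxd
      exact Or.inl (hboth k hk i true hx)
    · have hxd' := hxd.symm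
      rw [ad_rr] at hxd'
      rw [← hxd']
      exact Or.inr hx
  have huniq : ∀ k ∈ K, ∀ k' ∈ K, ∀ x, x ∈ k → x ∈ k' → k = k' := by
    intro k hk k' hk' x h1 h2
    by_contra hne
    exact Finset.disjoint_left.1 (h.pd k hk k' hk' hne) h1 h2
  by_cases hex1 : ∃ k ∈ K, (Sum.inl (d.1.1, true) : Nd G) ∈ k
  · obtain ⟨k1, hk1, hm1⟩ := hex1
    by_cases hex2 : ∃ k ∈ K, (Sum.inr (sw d) : Nd G) ∈ k
    · obtain ⟨k2, hk2, hm2⟩ := hex2
      by_cases h12 : k1 = k2
      · subst h12
        refine least_erase hA hd (drop1 h hd k1 fun k hk hne x hx hxd => hne ?_)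
        rcases key k hk x hx hxd with h3 | h3
        · exact huniq k hk k1 hk1 _ h3 hm1
        · exact huniq k hk k1 hk1 _ h3 hm2
      · refine least_erase hA hd (drop2 h hd hk1 hk2 h12 ?_ ?_)
        · intro y hy hyA
          rcases y with ⟨v, i⟩ | d'
          · rw [ad_rl] at hy
            simp only at hy
            subst hy
            exact Or.inl (hboth k1 hk1 true i hm1)
          · rw [ad_rr] at hy
            rw [hy]
            exact Or.inr hm2
        · intro k hk hne1 hne2 x hx hxd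
          rcases key k hk x hx hxd with h3 | h3
          · exact hne1 (huniq k hk k1 hk1 _ h3 hm1)
          · exact hne2 (huniq k hk k2 hk2 _ h3 hm2)
    · refine least_erase hA hd (drop1 h hd k1 fun k hk hne x hx hxd => hne ?_)
      rcases key k hk x hx hxd with h3 | h3
      · exact huniq k hk k1 hk1 _ h3 hm1
      · exact absurd ⟨k, hk, h3⟩ hex2
  · by_cases hex2 : ∃ k ∈ K, (Sum.inr (sw d) : Nd G) ∈ k
    · obtain ⟨k2, hk2, hm2⟩ := hex2
      refine least_erase hA hd (drop1 h hd k2 fun k hk hne x hx hxd => hne ?_)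
      rcases key k hk x hx hxd with h3 | h3
      · exact absurd ⟨k, hk, h3⟩ hex1
      · exact huniq k hk k2 hk2 _ h3 hm2
    · refine least_erase hA hd (drop1 h hd ∅ fun k hk _ x hx hxd => ?_)
      rcases key k hk x hx hxd with h3 | h3
      · exact hex1 ⟨k, hk, h3⟩
      · exact hex2 ⟨k, hk, h3⟩

end

end H47TF
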