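import Pool.Agent.Lib.H47TF.Def

/-! # H47TF, file N: barriers are inherited by subgraphs; a barrier splits -/

set_option autoImplicit false

namespace H47TF

open Finset

variable {V : Type*} [Fintype V] [DecidableEq V] {G G' : SimpleGraph V} {S T : Finset V} {C : Finset (Finset V)}

omit [Fintype V] [DecidableEq V] in
open scoped Classical in
theorem ee_mono (h : G ≤ G') (X Y : Finset V) : ee G X Y ≤ ee G' X Y :=
  card_le_card fun _ hp => mem_filter.2 ⟨(mem_filter.1 hp).1, h (mem_filter.1 hp).2⟩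

open scoped Classical in
/-- A barrier of `G'` gives a barrier of every subgraph `G`, with the same `S` and `T`. -/
theorem Bar.mono (h : G ≤ G') (hB : Bar G' S T C) : ∃ C', Bar G S T C' := by
  refine ⟨C.filter fun c => Odd (ee G c T), hB.disj, fun c hc => hB.sub c (mem_filter.1 hc).1,
    fun c hc c' hc' => hB.pd c (mem_filter.1 hc).1 c' (mem_filter.1 hc').1,
    fun c hc x hx y hxy => hB.cl c (mem_filter.1 hc).1 x hx y (h hxy), fun c hc => (mem_filter.1 hc).2, ?_⟩
  -- the pairs of `G'` which are not pairs of `G`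
  set D := (T ×ˢ Sᶜ).filter fun p => G'.Adj p.1 p.2 ∧ ¬ G.Adj p.1 p.2 with hD
  have h1 : ee G' T Sᶜ = ee G T Sᶜ + D.card := by
    have := card_filter_add_card_filter_not (s := (T ×ˢ Sᶜ).filter fun p => G'.Adj p.1 p.2)
      (fun p => G.Adj p.1 p.2)
    unfold ee
    rw [← this, filter_filter, filter_filter]
    congr 2
    exact filter_congr fun p _ => ⟨fun hp => hp.2, fun hp => ⟨h hp, hp⟩⟩
  have h2 : ∀ c ∈ C.filter (fun c => ¬ Odd (ee G c T)), ∃ p ∈ D, p.2 ∈ c := by
    intro c hc
    obtain ⟨hc, ho⟩ := mem_filter.1 hc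
    have hne : ee G c T ≠ ee G' c T := fun e => ho (e ▸ hB.odd c hc)
    by_contra hcon
    push Not at hcon
    refine hne (le_antisymm (ee_mono h _ _) (card_le_card fun p hp => ?_))
    obtain ⟨hp, ha⟩ := mem_filter.1 hp
    obtain ⟨hp1, hp2⟩ := mem_product.1 hp
    refine mem_filter.2 ⟨hp, ?_⟩
    by_contra hn
    exact hcon (p.2, p.1) (mem_filter.2 ⟨mem_product.2 ⟨hp2, mem_compl.2 (hB.sub c hc _ hp1).1⟩, ha.symm,
      fun h' => hn h'.symm⟩) hp1
  have h3 : (C.filter (fun c => ¬ Odd (ee G c T))).card ≤ D.card := by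
    refine card_le_card_of_forall_subsingleton (fun c p => p.2 ∈ c) h2 fun p _ c hc c' hc' => ?_
    by_contra hne
    exact disjoint_left.1 (hB.pd c (mem_filter.1 hc.1).1 c' (mem_filter.1 hc'.1).1 hne) hc.2 hc'.2
  have h4 := card_filter_add_card_filter_not (s := C) (fun c => Odd (ee G c T))
  have h5 := hB.big
  omega

end H47TF
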